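import Mathlib
set_option autoImplicit false

/-! Sets of small doubling in a product of a torsion-free group and a group of exponent `m`. -/

namespace Pool.Agent.X164.MG

open Finset
open scoped Pointwise

variable {Γ : Type*} [AddCommGroup Γ] [DecidableEq Γ]

theorem one_le {A : Finset Γ} {K : ℝ} (hA : A.Nonempty)
    (hK : ((A + A).card : ℝ) ≤ K * A.card) : 1 ≤ K := by
  have hAr : (0 : ℝ) < A.card := by exact_mod_cast hA.card_pos
  have h1 : (A.card : ℝ) ≤ (A + A).card := by
    exact_mod_cast Finset.card_le_card_add_right hA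
  nlinarith

theorem nsmul_card_le {A : Finset Γ} {K : ℝ} (hA : A.Nonempty)
    (hK : ((A + A).card : ℝ) ≤ K * A.card) (n : ℕ) :
    ((n • A).card : ℝ) ≤ K ^ n * A.card := by
  have hAr : (0 : ℝ) < A.card := by exact_mod_cast hA.card_pos
  have h := Finset.pluennecke_ruzsa_inequality_nsmul_add hA A n
  have h1 : ((n • A).card : ℝ) ≤ (((A + A).card : ℝ) / A.card) ^ n * A.card := by
    have h2 : (((n • A).card : ℚ≥0) : ℝ) ≤
        (((((A + A).card : ℚ≥0) / (A.card : ℚ≥0)) ^ n * (A.card : ℚ≥0) : ℚ≥0) : ℝ) := by
      exact_mod_cast h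
    push_cast at h2
    exact h2
  refine h1.trans ?_
  refine mul_le_mul_of_nonneg_right ?_ hAr.le
  refine pow_le_pow_left₀ (by positivity) ?_ n
  rw [div_le_iff₀ hAr]
  exact hK

theorem nsmul_mem_nsmul {A : Finset Γ} {a : Γ} (ha : a ∈ A) (n : ℕ) : n • a ∈ n • A := by
  induction n with
  | zero => simp
  | succ n ih =>
    rw [succ_nsmul, succ_nsmul]
    exact Finset.add_mem_add ih ha

/-- the inequality in all groups -/
theorem classes_mul_le {A : Finset Γ} {K : ℝ} (hA : A.Nonempty)
    (hK : ((A + A).card : ℝ) ≤ K * A.card) (m : ℕ) :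
    (((QuotientAddGroup.mk' (nsmulAddMonoidHom (α := Γ) m).range) '' (A : Set Γ)).ncard : ℝ) *
      (A.image (fun a => m • a)).card ≤ K ^ (m + 1) * A.card := by
  classical
  set q := QuotientAddGroup.mk' (nsmulAddMonoidHom (α := Γ) m).range with hq
  have himg : q '' (A : Set Γ) = ((A.image q : Finset _) : Set _) := by rw [Finset.coe_image]
  rw [himg, Set.ncard_coe_finset]
  refine le_trans ?_ (nsmul_card_le hA hK (m + 1))
  have h1 : ∀ c ∈ A.image q, ∃ a ∈ A, q a = c := fun c hc => Finset.mem_image.1 hc
  choose! s hs1 hs2 using h1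
  have h2 : ((A.image q) ×ˢ (A.image (fun a => m • a))).card ≤ ((m + 1) • A).card := by
    refine Finset.card_le_card_of_injOn (fun p => s p.1 + p.2) ?_ ?_
    · rintro ⟨c, d⟩ hp
      rw [Finset.mem_coe, Finset.mem_product] at hp
      obtain ⟨a, ha, had⟩ := Finset.mem_image.1 hp.2
      simp only at had
      rw [Finset.mem_coe, succ_nsmul, add_comm (m • A)]
      refine Finset.add_mem_add (hs1 _ hp.1) ?_
      rw [← had]
      exact nsmul_mem_nsmul ha m
    · rintro ⟨c, d⟩ hp ⟨c', d'⟩ hp' h
      rw [Finset.mem_coe, Finset.mem_product] at hp hp'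
      simp only at h
      have hd : q d = 0 := by
        obtain ⟨a, ha, had⟩ := Finset.mem_image.1 hp.2
        exact (QuotientAddGroup.eq_zero_iff d).2 ⟨a, had⟩
      have hd' : q d' = 0 := by
        obtain ⟨a, ha, had⟩ := Finset.mem_image.1 hp'.2
        exact (QuotientAddGroup.eq_zero_iff d').2 ⟨a, had⟩
      have h3 := congrArg q h
      rw [map_add, map_add, hd, hd', add_zero, add_zero, hs2 _ hp.1, hs2 _ hp'.1] at h3
      subst h3
      rw [add_right_inj] at h
      rw [h]
  rw [Finset.card_product] at h2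
  exact_mod_cast h2

section mix

variable {Φ F : Type*} [AddCommGroup Φ] [DecidableEq Φ] [AddCommGroup F] [DecidableEq F]
  {m : ℕ} (π : Γ →+ Φ) (g : Γ →+ F)

theorem prod_le (hF : ∀ y : F, m • y = 0) (hΦ : ∀ x y : Φ, m • x = m • y → x = y)
    {A : Finset Γ} {K : ℝ} (hA : A.Nonempty) (hK : ((A + A).card : ℝ) ≤ K * A.card) :
    ((A.image π).card : ℝ) * (A.image g).card ≤ K ^ (m + 1) * A.card := by
  refine le_trans ?_ (nsmul_card_le hA hK (m + 1))
  have h1 : ∀ c ∈ A.image g, ∃ a ∈ A, g a = c := fun c hc => Finset.mem_image.1 hc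
  have h1' : ∀ c ∈ A.image π, ∃ a ∈ A, π a = c := fun c hc => Finset.mem_image.1 hc
  choose! s hs1 hs2 using h1
  choose! b hb1 hb2 using h1'
  have h2 : ((A.image π) ×ˢ (A.image g)).card ≤ ((m + 1) • A).card := by
    refine Finset.card_le_card_of_injOn (fun p => s p.2 + m • b p.1) ?_ ?_
    · rintro ⟨c, d⟩ hp
      rw [Finset.mem_coe, Finset.mem_product] at hp
      rw [Finset.mem_coe, succ_nsmul, add_comm (m • A)]
      exact Finset.add_mem_add (hs1 _ hp.2) (nsmul_mem_nsmul (hb1 _ hp.1) m)
    · rintro ⟨c, d⟩ hp ⟨c', d'⟩ hp' h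
      rw [Finset.mem_coe, Finset.mem_product] at hp hp'
      simp only at h hp hp'
      have h3 := congrArg g h
      rw [map_add, map_add, map_nsmul, map_nsmul, hF, hF, add_zero, add_zero, hs2 _ hp.2,
        hs2 _ hp'.2] at h3
      subst h3
      have h4 := congrArg π h
      rw [map_add, map_add, map_nsmul, map_nsmul, add_right_inj, hb2 _ hp.1, hb2 _ hp'.1] at h4
      rw [hΦ _ _ h4]
  rw [Finset.card_product] at h2
  exact_mod_cast h2

theorem card_le_prod (hinj : ∀ x, π x = 0 → g x = 0 → x = 0) (A : Finset Γ) :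
    A.card ≤ (A.image π).card * (A.image g).card := by
  rw [← Finset.card_product]
  refine Finset.card_le_card_of_injOn (fun a => (π a, g a)) ?_ ?_
  · intro a ha
    rw [Finset.mem_coe, Finset.mem_product]
    exact ⟨Finset.mem_image_of_mem _ ha, Finset.mem_image_of_mem _ ha⟩
  · intro a _ b _ h
    simp only [Prod.mk.injEq] at h
    have := hinj (a - b) (by rw [map_sub, h.1, sub_self]) (by rw [map_sub, h.2, sub_self])
    exact sub_eq_zero.1 this

theorem sumset_snd (hF : ∀ y : F, m • y = 0) (hΦ : ∀ x y : Φ, m • x = m • y → x = y)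
    (hinj : ∀ x, π x = 0 → g x = 0 → x = 0)
    {A : Finset Γ} {K : ℝ} (hA : A.Nonempty) (hK : ((A + A).card : ℝ) ≤ K * A.card) :
    ((A.image g + A.image g).card : ℝ) ≤ K ^ (m + 2) * (A.image g).card := by
  have hK1 := one_le hA hK
  have hBpos : (0 : ℝ) < (A.image π).card := by exact_mod_cast (hA.image π).card_pos
  have h1' : ∀ c ∈ A.image π, ∃ a ∈ A, π a = c := fun c hc => Finset.mem_image.1 hc
  choose! b hb1 hb2 using h1'
  have h1 : ∀ s ∈ A.image g + A.image g, ∃ a, a ∈ A + A ∧ g a = s := by
    intro s hs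
    obtain ⟨x, hx, y, hy, rfl⟩ := Finset.mem_add.1 hs
    obtain ⟨a, ha, rfl⟩ := Finset.mem_image.1 hx
    obtain ⟨c, hc, rfl⟩ := Finset.mem_image.1 hy
    exact ⟨a + c, Finset.add_mem_add ha hc, map_add _ _ _⟩
  choose! s hs1 hs2 using h1
  have h2 : ((A.image π) ×ˢ (A.image g + A.image g)).card ≤ ((m + 2) • A).card := by
    refine Finset.card_le_card_of_injOn (fun p => s p.2 + m • b p.1) ?_ ?_
    · rintro ⟨c, d⟩ hp
      rw [Finset.mem_coe, Finset.mem_product] at hp
      have e1 : (m + 2) • A = (A + A) + m • A := by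
        rw [add_nsmul, two_nsmul, add_comm]
      rw [Finset.mem_coe, e1]
      exact Finset.add_mem_add (hs1 _ hp.2) (nsmul_mem_nsmul (hb1 _ hp.1) m)
    · rintro ⟨c, d⟩ hp ⟨c', d'⟩ hp' h
      rw [Finset.mem_coe, Finset.mem_product] at hp hp'
      simp only at h hp hp'
      have h3 := congrArg g h
      rw [map_add, map_add, map_nsmul, map_nsmul, hF, hF, add_zero, add_zero, hs2 _ hp.2,
        hs2 _ hp'.2] at h3
      subst h3
      have h4 := congrArg π h
      rw [map_add, map_add, map_nsmul, map_nsmul, add_right_inj, hb2 _ hp.1, hb2 _ hp'.1] at h4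
      rw [hΦ _ _ h4]
  rw [Finset.card_product] at h2
  have h3 : ((A.image π).card : ℝ) * (A.image g + A.image g).card ≤ ((m + 2) • A).card := by
    exact_mod_cast h2
  have h4 := nsmul_card_le hA hK (m + 2)
  have h5 : (A.card : ℝ) ≤ (A.image π).card * (A.image g).card := by
    exact_mod_cast card_le_prod π g hinj A
  have h6 : ((A.image π).card : ℝ) * (A.image g + A.image g).card ≤
      (A.image π).card * (K ^ (m + 2) * (A.image g).card) := by
    calc ((A.image π).card : ℝ) * (A.image g + A.image g).card ≤ K ^ (m + 2) * A.card :=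
          h3.trans h4
      _ ≤ K ^ (m + 2) * ((A.image π).card * (A.image g).card) :=
          mul_le_mul_of_nonneg_left h5 (by positivity)
      _ = _ := by ring
  exact le_of_mul_le_mul_left h6 hBpos

/-- a heavy fibre -/
theorem heavy (A : Finset Γ) (hA : A.Nonempty) :
    ∃ x ∈ A.image π, A.card ≤ (A.image π).card * (A.filter (fun a => π a = x)).card := by
  by_contra hcon
  push Not at hcon
  have h1 : A.card = ∑ x ∈ A.image π, (A.filter (fun a => π a = x)).card :=
    Finset.card_eq_sum_card_image π A
  have h2 : (A.image π).card * ∑ x ∈ A.image π, (A.filter (fun a => π a = x)).card <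
      (A.image π).card * A.card := by
    rw [Finset.mul_sum]
    calc ∑ x ∈ A.image π, (A.image π).card * (A.filter (fun a => π a = x)).card
        < ∑ _x ∈ A.image π, A.card := Finset.sum_lt_sum_of_nonempty (hA.image π) hcon
      _ = _ := by rw [Finset.sum_const, smul_eq_mul]
  rw [← h1] at h2
  exact lt_irrefl _ h2

theorem sumset_fst {A : Finset Γ} {K : ℝ} (hA : A.Nonempty)
    (hK : ((A + A).card : ℝ) ≤ K * A.card) :
    ((A.image π + A.image π).card : ℝ) ≤ K ^ 3 * (A.image π).card := by
  have hK1 := one_le hA hK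
  have hApos : (0 : ℝ) < A.card := by exact_mod_cast hA.card_pos
  obtain ⟨x, hx, hbig⟩ := heavy π A hA
  have h1 : ∀ s ∈ A.image π + A.image π, ∃ a, a ∈ A + A ∧ π a = s := by
    intro s hs
    obtain ⟨x, hx, y, hy, rfl⟩ := Finset.mem_add.1 hs
    obtain ⟨a, ha, rfl⟩ := Finset.mem_image.1 hx
    obtain ⟨c, hc, rfl⟩ := Finset.mem_image.1 hy
    exact ⟨a + c, Finset.add_mem_add ha hc, map_add _ _ _⟩
  choose! s hs1 hs2 using h1
  have h2 : ((A.image π + A.image π) ×ˢ (A.filter (fun a => π a = x))).card ≤ (3 • A).card := by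
    refine Finset.card_le_card_of_injOn (fun p => s p.1 + p.2) ?_ ?_
    · rintro ⟨c, d⟩ hp
      rw [Finset.mem_coe, Finset.mem_product] at hp
      have e1 : 3 • A = (A + A) + A := by
        rw [show 3 = 2 + 1 by norm_num, add_nsmul, two_nsmul, one_nsmul]
      rw [Finset.mem_coe, e1]
      exact Finset.add_mem_add (hs1 _ hp.1) (Finset.mem_filter.1 hp.2).1
    · rintro ⟨c, d⟩ hp ⟨c', d'⟩ hp' h
      rw [Finset.mem_coe, Finset.mem_product] at hp hp'
      simp only at h hp hp'
      have h4 := congrArg π h
      rw [map_add, map_add, hs2 _ hp.1, hs2 _ hp'.1, (Finset.mem_filter.1 hp.2).2,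
        (Finset.mem_filter.1 hp'.2).2, add_left_inj] at h4
      subst h4
      rw [add_right_inj] at h
      rw [h]
  rw [Finset.card_product] at h2
  have h3 : ((A.image π + A.image π).card : ℝ) * (A.filter (fun a => π a = x)).card ≤
      (3 • A).card := by exact_mod_cast h2
  have h4 := nsmul_card_le hA hK 3
  have h5 : (A.card : ℝ) ≤ (A.image π).card * (A.filter (fun a => π a = x)).card := by
    exact_mod_cast hbig
  have h6 : (A.card : ℝ) * (A.image π + A.image π).card ≤
      A.card * (K ^ 3 * (A.image π).card) := by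
    calc (A.card : ℝ) * (A.image π + A.image π).card
        ≤ ((A.image π).card * (A.filter (fun a => π a = x)).card) *
            (A.image π + A.image π).card :=
          mul_le_mul_of_nonneg_right h5 (Nat.cast_nonneg _)
      _ = (A.image π).card * ((A.image π + A.image π).card *
            (A.filter (fun a => π a = x)).card) := by ring
      _ ≤ (A.image π).card * (K ^ 3 * A.card) :=
          mul_le_mul_of_nonneg_left (h3.trans h4) (Nat.cast_nonneg _)
      _ = _ := by ring
  exact le_of_mul_le_mul_left h6 hApos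

/-- the points with a heavy fibre -/
def pop (A : Finset Γ) : Finset Φ :=
  (A.image π).filter (fun x => A.card ≤ 2 * (A.image π).card * (A.filter (fun a => π a = x)).card)

theorem pop_big (hF : ∀ y : F, m • y = 0) (hΦ : ∀ x y : Φ, m • x = m • y → x = y)
    (hinj : ∀ x, π x = 0 → g x = 0 → x = 0)
    {A : Finset Γ} {K : ℝ} (hA : A.Nonempty) (hK : ((A + A).card : ℝ) ≤ K * A.card) :
    ((A.image π).card : ℝ) ≤ 2 * K ^ (m + 1) * (pop π A).card := by
  have hK1 := one_le hA hK
  have hEpos : (0 : ℝ) < (A.image g).card := by exact_mod_cast (hA.image g).card_pos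
  have hBpos : 0 < (A.image π).card := (hA.image π).card_pos
  have hfib : ∀ x, (A.filter (fun a => π a = x)).card ≤ (A.image g).card := by
    intro x
    refine Finset.card_le_card_of_injOn g ?_ ?_
    · intro a ha
      exact Finset.mem_image_of_mem _ (Finset.mem_filter.1 (Finset.mem_coe.1 ha)).1
    · intro a ha b hb h
      have ha' := (Finset.mem_filter.1 (Finset.mem_coe.1 ha)).2
      have hb' := (Finset.mem_filter.1 (Finset.mem_coe.1 hb)).2
      have := hinj (a - b) (by rw [map_sub, ha', hb', sub_self]) (by rw [map_sub, h, sub_self])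
      exact sub_eq_zero.1 this
  have h1 : A.card = ∑ x ∈ A.image π, (A.filter (fun a => π a = x)).card :=
    Finset.card_eq_sum_card_image π A
  have h2 : A.card ≤ 2 * ((pop π A).card * (A.image g).card) := by
    have e1 : ∑ x ∈ A.image π, (A.filter (fun a => π a = x)).card =
        ∑ x ∈ pop π A, (A.filter (fun a => π a = x)).card +
        ∑ x ∈ (A.image π).filter (fun x => ¬ A.card ≤
          2 * (A.image π).card * (A.filter (fun a => π a = x)).card),
          (A.filter (fun a => π a = x)).card :=
      (Finset.sum_filter_add_sum_filter_not _ _ _).symm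
    have e2 : ∑ x ∈ pop π A, (A.filter (fun a => π a = x)).card ≤
        (pop π A).card * (A.image g).card := by
      rw [← smul_eq_mul, ← Finset.sum_const]
      exact Finset.sum_le_sum fun x _ => hfib x
    have e3 : 2 * (A.image π).card * ∑ x ∈ (A.image π).filter (fun x => ¬ A.card ≤
          2 * (A.image π).card * (A.filter (fun a => π a = x)).card),
          (A.filter (fun a => π a = x)).card ≤ (A.image π).card * A.card := by
      rw [Finset.mul_sum]
      calc _ ≤ ∑ _x ∈ (A.image π).filter (fun x => ¬ A.card ≤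
          2 * (A.image π).card * (A.filter (fun a => π a = x)).card), A.card := by
            refine Finset.sum_le_sum fun x hx => ?_
            have := (Finset.mem_filter.1 hx).2
            omega
        _ ≤ ∑ _x ∈ A.image π, A.card :=
            Finset.sum_le_sum_of_subset (Finset.filter_subset _ _)
        _ = _ := by rw [Finset.sum_const, smul_eq_mul]
    set S := ∑ x ∈ (A.image π).filter (fun x => ¬ A.card ≤
          2 * (A.image π).card * (A.filter (fun a => π a = x)).card),
          (A.filter (fun a => π a = x)).card with hS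
    have e4 : 2 * S ≤ A.card := by
      have : (A.image π).card * (2 * S) ≤ (A.image π).card * A.card := by
        calc (A.image π).card * (2 * S) = 2 * (A.image π).card * S := by ring
          _ ≤ _ := e3
      exact Nat.le_of_mul_le_mul_left this hBpos
    rw [e1] at h1
    omega
  have h3 := prod_le π g hF hΦ hA hK
  have h2' : (A.card : ℝ) ≤ 2 * ((pop π A).card * (A.image g).card) := by exact_mod_cast h2
  have h4 : ((A.image π).card : ℝ) * (A.image g).card ≤
      (2 * K ^ (m + 1) * (pop π A).card) * (A.image g).card := by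
    calc ((A.image π).card : ℝ) * (A.image g).card ≤ K ^ (m + 1) * A.card := h3
      _ ≤ K ^ (m + 1) * (2 * ((pop π A).card * (A.image g).card)) :=
          mul_le_mul_of_nonneg_left h2' (by positivity)
      _ = _ := by ring
  exact le_of_mul_le_mul_right h4 hEpos

end mix

end Pool.Agent.X164.MG
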