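import Pool.Agent.X164.MG.A
import Pool.Agent.Y806.DF.D
import Pool.Agent.TH404.Tor.Final
set_option autoImplicit false
set_option linter.unusedSectionVars false

/-! Transfer of coset progressions from the torsion-free part. -/

namespace Pool.Agent.X164.MG

open Finset
open scoped Pointwise
open Pool.Agent.Y806.DF

/-- the conclusion of the polynomial Freiman-Ruzsa conjecture with the constant `C` -/
def Concl (C K : ℝ) {Γ : Type*} [AddCommGroup Γ] (A : Finset Γ) : Prop :=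
  ∃ (d : ℕ) (B : Set (Fin d → ℝ)) (ψ : (Fin d → ℤ) →+ Γ) (H : AddSubgroup Γ) (T : Finset Γ),
    (d : ℝ) ≤ C * Real.log (2 * K) ∧ Body B ∧ Finite H ∧
    (lat B).ncard * Nat.card H ≤ A.card ∧ (T.card : ℝ) ≤ C * K ^ C ∧ Cov B ψ H T A

theorem concl_of_data {Γ : Type*} [AddCommGroup Γ] [DecidableEq Γ] {K : ℝ} {A : Finset Γ}
    (hA : A.Nonempty) (hK : ((A + A).card : ℝ) ≤ K * A.card) {n : ℕ} (hn1 : 1 ≤ n)
    {d : ℕ} {X : Finset (Fin d → ℤ)} {ψ : (Fin d → ℤ) →+ Γ} {H : AddSubgroup Γ} {g : Γ}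
    (hD' : Data (n * K ^ n) A X ψ H g) : Concl ((5000 * n ^ 5000 : ℕ) : ℝ) K A := by
  have hn1r : (1 : ℝ) ≤ n := by exact_mod_cast hn1
  have hK1 := one_le_K hA hK
  have hK0 : 0 < K := by linarith
  have hKK : K ≤ (n : ℝ) * K ^ n := by
    calc K = 1 * K ^ 1 := by rw [pow_one, one_mul]
      _ ≤ n * K ^ n := mul_le_mul hn1r (pow_le_pow_right₀ hK1 hn1) (by positivity) (by positivity)
  obtain ⟨r, B, θ, H', T, h1, h2, h3, h4, h5, h6⟩ := main hA
    (hK.trans (mul_le_mul_of_nonneg_right hKK (Nat.cast_nonneg _))) hD'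
  have hn5000 : n ≤ n ^ 5000 := by
    calc n = n ^ 1 := (pow_one n).symm
      _ ≤ n ^ 5000 := Nat.pow_le_pow_right hn1 (by norm_num)
  have hn5000r : (n : ℝ) ≤ ((n ^ 5000 : ℕ) : ℝ) := by exact_mod_cast hn5000
  have hlog0 : 0 ≤ Real.log (2 * K) := Real.log_nonneg (by linarith)
  refine ⟨r, B, θ, H', T, ?_, h2, h3, h4, ?_, h6⟩
  · have h7 : 2 * ((n : ℝ) * K ^ n) ≤ (2 * K) ^ (2 * n) := by
      have e1 : 2 * (n : ℝ) ≤ 2 ^ (2 * n) := by
        have : 2 * n < 2 ^ (2 * n) := Nat.lt_two_pow_self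
        exact_mod_cast this.le
      have e2 : K ^ n ≤ K ^ (2 * n) := pow_le_pow_right₀ hK1 (by omega)
      calc 2 * ((n : ℝ) * K ^ n) = (2 * (n : ℝ)) * K ^ n := by ring
        _ ≤ 2 ^ (2 * n) * K ^ (2 * n) := mul_le_mul e1 e2 (by positivity) (by positivity)
        _ = (2 * K) ^ (2 * n) := (mul_pow _ _ _).symm
    have h8 : Real.log (2 * ((n : ℝ) * K ^ n)) ≤ (2 * n : ℕ) * Real.log (2 * K) := by
      rw [← Real.log_pow]
      exact Real.log_le_log (by positivity) h7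
    push_cast at h8
    calc (r : ℝ) ≤ 500 * Real.log (2 * ((n : ℝ) * K ^ n)) := h1
      _ ≤ 500 * (2 * n * Real.log (2 * K)) := mul_le_mul_of_nonneg_left h8 (by norm_num)
      _ = (1000 * n) * Real.log (2 * K) := by ring
      _ ≤ ((5000 * n ^ 5000 : ℕ) : ℝ) * Real.log (2 * K) := by
        refine mul_le_mul_of_nonneg_right ?_ hlog0
        rw [Nat.cast_mul]
        have : ((5000 : ℕ) : ℝ) = 5000 := by norm_num
        rw [this]
        linarith
  · have h7 : ((n : ℝ) * K ^ n) ^ 5000 = (n : ℝ) ^ 5000 * K ^ (n * 5000) := by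
      rw [mul_pow, ← pow_mul]
    have h8 : ((n * 5000 : ℕ) : ℝ) ≤ ((5000 * n ^ 5000 : ℕ) : ℝ) := by
      exact_mod_cast (by rw [mul_comm]; exact Nat.mul_le_mul_left _ hn5000 :
        n * 5000 ≤ 5000 * n ^ 5000)
    calc (T.card : ℝ) ≤ 5000 * ((n : ℝ) * K ^ n) ^ 5000 := h5
      _ = (5000 * (n : ℝ) ^ 5000) * K ^ (n * 5000) := by rw [h7, mul_assoc]
      _ ≤ (5000 * (n : ℝ) ^ 5000) * K ^ ((5000 * n ^ 5000 : ℕ) : ℝ) :=
        mul_le_mul_of_nonneg_left (pow_le_rpow hK1 h8) (by positivity)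
      _ = ((5000 * n ^ 5000 : ℕ) : ℝ) * K ^ ((5000 * n ^ 5000 : ℕ) : ℝ) := by
        congr 1
        rw [Nat.cast_mul, Nat.cast_pow]
        norm_num

/-- a covering by few translates gives the data (from the proof of `imp_free`) -/
theorem data_of_concl {Γ : Type*} [AddCommGroup Γ] [DecidableEq Γ] {C K : ℝ} {A : Finset Γ}
    {n : ℕ} (hn : C ≤ n) (hCK : ∀ K : ℝ, 1 ≤ K → C * K ^ C ≤ n * K ^ n)
    (hA : A.Nonempty) (hK1 : 1 ≤ K) (hc : Concl C K A) :
    ∃ (d : ℕ) (X : Finset (Fin d → ℤ)) (ψ : (Fin d → ℤ) →+ Γ) (H : AddSubgroup Γ) (g : Γ),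
      Data ((4 ^ n : ℕ) * K ^ (4 ^ n : ℕ)) A X ψ H g := by
  classical
  have hK0 : 0 < K := by linarith
  have hlog0 : 0 ≤ Real.log (2 * K) := Real.log_nonneg (by linarith)
  obtain ⟨d, B, ψ, H, T, hd, hB, hH, hvol, hT, hcov⟩ := hc
  have hsym : Sym B := ⟨hB.1, hB.2.1, hB.2.2.2, hB.2.2.1.mono interior_subset⟩
  have hfin : (lat B).Finite := lat_finite hB.2.1.isBounded
  have h4n : 2 * n ≤ 4 ^ n := by
    calc 2 * n ≤ 2 ^ (2 * n) := Nat.lt_two_pow_self.le
      _ = 4 ^ n := by rw [pow_mul]; norm_num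
  have hbig : ((n : ℕ) : ℝ) * K ^ n ≤ ((4 ^ n : ℕ) : ℝ) * K ^ (4 ^ n : ℕ) := by
    have e1 : ((n : ℕ) : ℝ) ≤ ((4 ^ n : ℕ) : ℝ) := by exact_mod_cast (by omega : n ≤ 4 ^ n)
    exact mul_le_mul e1 (pow_le_pow_right₀ hK1 (by omega)) (by positivity) (Nat.cast_nonneg _)
  have hone : (1 : ℝ) ≤ ((4 ^ n : ℕ) : ℝ) * K ^ (4 ^ n : ℕ) := by
    have e1 : (1 : ℝ) ≤ ((4 ^ n : ℕ) : ℝ) := by exact_mod_cast Nat.one_le_pow _ _ (by norm_num)
    have e2 : (1 : ℝ) ≤ K ^ (4 ^ n : ℕ) := one_le_pow₀ hK1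
    nlinarith
  have hdd : (4 : ℝ) ^ d ≤ ((4 ^ n : ℕ) : ℝ) * K ^ (4 ^ n : ℕ) := by
    have e1 : (d : ℝ) ≤ n * Real.log (2 * K) := hd.trans (mul_le_mul_of_nonneg_right hn hlog0)
    have e2 : Real.log 4 ≤ 2 := by
      rw [show (4 : ℝ) = 2 ^ 2 by norm_num, Real.log_pow]
      have := Real.log_two_lt_d9
      push_cast
      linarith
    have e3 : Real.log ((4 : ℝ) ^ d) ≤ Real.log ((2 * K) ^ (2 * n)) := by
      rw [Real.log_pow, Real.log_pow]
      calc (d : ℝ) * Real.log 4 ≤ d * 2 := mul_le_mul_of_nonneg_left e2 (Nat.cast_nonneg _)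
        _ ≤ (n * Real.log (2 * K)) * 2 := mul_le_mul_of_nonneg_right e1 (by norm_num)
        _ = ((2 * n : ℕ) : ℝ) * Real.log (2 * K) := by push_cast; ring
    have e4 : (4 : ℝ) ^ d ≤ (2 * K) ^ (2 * n) :=
      (Real.log_le_log_iff (by positivity) (by positivity)).1 e3
    calc (4 : ℝ) ^ d ≤ (2 * K) ^ (2 * n) := e4
      _ = ((4 ^ n : ℕ) : ℝ) * K ^ (2 * n) := by
        rw [mul_pow, pow_mul 2 2 n]
        push_cast
        norm_num
      _ ≤ ((4 ^ n : ℕ) : ℝ) * K ^ (4 ^ n : ℕ) :=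
        mul_le_mul_of_nonneg_left (pow_le_pow_right₀ hK1 h4n) (Nat.cast_nonneg _)
  obtain ⟨t, ht, ht2⟩ := pigeon T A A hA (fun t a => ∃ x ∈ hfin.toFinset, ∃ h ∈ H, a = t + ψ x + h)
    subset_rfl (by
      intro a ha
      obtain ⟨t, ht, x, hx, h, hh, e⟩ := hcov a ha
      exact ⟨t, ht, x, (Set.Finite.mem_toFinset _).2 hx, h, hh, e⟩)
  refine ⟨d, hfin.toFinset, ψ, H, t, ⟨?_, hH, ?_, ?_, ?_, ?_⟩⟩
  · refine ⟨0, ?_⟩
    rw [Set.Finite.mem_toFinset]
    show re 0 ∈ B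
    have : re (0 : Fin d → ℤ) = 0 := by funext i; simp [re]
    rw [this]
    exact hsym.zero
  · have h1 : (hfin.toFinset + hfin.toFinset).card ≤ num B 2 := by
      rw [num, Set.ncard_eq_toFinset_card _ (hsym.finite 2)]
      refine Finset.card_le_card ?_
      intro x hx
      obtain ⟨a, ha, b, hb, rfl⟩ := Finset.mem_add.1 hx
      rw [Set.Finite.mem_toFinset] at ha hb ⊢
      have ha' : a ∈ lat ((1 : ℝ) • B) := by rw [one_smul]; exact ha
      have hb' : b ∈ lat ((1 : ℝ) • B) := by rw [one_smul]; exact hb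
      have h2 := hsym.add (by norm_num) (by norm_num) ha' hb'
      norm_num at h2
      exact h2
    have h2 : num B 2 ≤ 4 ^ d * hfin.toFinset.card := by
      have h3 := num_double hsym (t := 1) (by norm_num)
      rw [mul_one] at h3
      have h4 : num B 1 = hfin.toFinset.card := by
        rw [num, one_smul]
        exact Set.ncard_eq_toFinset_card _ hfin
      rwa [h4] at h3
    calc ((hfin.toFinset + hfin.toFinset).card : ℝ) ≤ ((4 ^ d * hfin.toFinset.card : ℕ) : ℝ) := by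
          exact_mod_cast h1.trans h2
      _ = (4 : ℝ) ^ d * hfin.toFinset.card := by push_cast; rfl
      _ ≤ _ := mul_le_mul_of_nonneg_right hdd (Nat.cast_nonneg _)
  · have h1 : hull hfin.toFinset ⊆ (hfin.toFinset : Set (Fin d → ℤ)) := by
      intro v hv
      rw [Finset.mem_coe, Set.Finite.mem_toFinset]
      refine convexHull_min ?_ hsym.conv hv
      rintro _ ⟨x, hx, rfl⟩
      rw [Finset.mem_coe, Set.Finite.mem_toFinset] at hx
      exact hx
    have h2 := Set.ncard_le_ncard h1 (Finset.finite_toSet _)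
    rw [Set.ncard_coe_finset] at h2
    calc ((hull hfin.toFinset).ncard : ℝ) ≤ 1 * hfin.toFinset.card := by
          rw [one_mul]; exact_mod_cast h2
      _ ≤ _ := mul_le_mul_of_nonneg_right hone (Nat.cast_nonneg _)
  · have h1 : (hfin.toFinset.card : ℝ) * Nat.card H ≤ 1 * A.card := by
      rw [one_mul]
      rw [Set.ncard_eq_toFinset_card _ hfin] at hvol
      exact_mod_cast hvol
    exact h1.trans (mul_le_mul_of_nonneg_right hone (Nat.cast_nonneg _))
  · have h1 : {a : Γ | a ∈ A ∧ ∃ x ∈ hfin.toFinset, ∃ h ∈ H, a = t + ψ x + h} =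
        ((A.filter (fun a => ∃ x ∈ hfin.toFinset, ∃ h ∈ H, a = t + ψ x + h) : Finset Γ) : Set Γ) := by
      rw [Finset.coe_filter]
    rw [h1, Set.ncard_coe_finset]
    have hT' : (T.card : ℝ) ≤ ((4 ^ n : ℕ) : ℝ) * K ^ (4 ^ n : ℕ) :=
      (hT.trans (hCK K hK1)).trans hbig
    calc (A.card : ℝ) ≤ T.card *
          (A.filter (fun a => ∃ x ∈ hfin.toFinset, ∃ h ∈ H, a = t + ψ x + h)).card := by
          exact_mod_cast ht2
      _ ≤ _ := mul_le_mul_of_nonneg_right hT' (Nat.cast_nonneg _)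

section transfer

variable {Γ : Type*} [AddCommGroup Γ] [DecidableEq Γ] {r m : ℕ} {π : Γ →+ (Fin r → ℤ)}
  {ψ : (Fin r → ℤ) →+ Γ}

/-- the projection to the kernel -/
def proj (hψ : ∀ x, π (ψ x) = x) : Γ →+ π.ker :=
  (AddMonoidHom.id Γ - ψ.comp π).codRestrict π.ker (fun x => by
    change π (x - ψ (π x)) = 0
    rw [map_sub, hψ, sub_self])

theorem proj_coe (hψ : ∀ x, π (ψ x) = x) (x : Γ) : ((proj hψ x : π.ker) : Γ) = x - ψ (π x) := rfl

theorem proj_inj (hψ : ∀ x, π (ψ x) = x) (x : Γ) (h1 : π x = 0) (h2 : proj hψ x = 0) : x = 0 := by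
  have h3 := congrArg (fun y : π.ker => (y : Γ)) h2
  simp only [proj_coe, h1, map_zero, sub_zero] at h3
  exact h3

theorem int_nsmul_inj (hm : 0 < m) (x y : Fin r → ℤ) (h : m • x = m • y) : x = y := by
  funext i
  have := congrFun h i
  simp only [Pi.smul_apply, nsmul_eq_mul] at this
  exact mul_left_cancel₀ (by exact_mod_cast hm.ne') this

/-- **Transfer.** -/
theorem transfer (hm : 0 < m) (hψ : ∀ x, π (ψ x) = x) (hker : ∀ x, π x = 0 → m • x = 0)
    {A : Finset Γ} {K K₁ : ℝ} (hA : A.Nonempty) (hK : ((A + A).card : ℝ) ≤ K * A.card)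
    (hK₁ : 1 ≤ K₁) {d : ℕ} {X : Finset (Fin d → ℤ)} {ψ₀ : (Fin d → ℤ) →+ (Fin r → ℤ)}
    {H₀ : AddSubgroup (Fin r → ℤ)} {g₀ : Fin r → ℤ} (hD : Data K₁ (pop π A) X ψ₀ H₀ g₀) :
    ∃ (H : AddSubgroup Γ) (g : Γ),
      Data (4 * K₁ * K ^ (m + 1) * (2 * K ^ (m + 2)) ^ (41005 * (Nat.log 2 m + 1))) A X
        (ψ.comp ψ₀) H g := by
  classical
  have hK1 := one_le hA hK
  have hK0 : 0 < K := by linarith
  have hF : ∀ y : π.ker, m • y = 0 := fun y => Subtype.ext (by
    rw [AddSubgroup.coe_nsmul, AddSubgroup.coe_zero]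
    exact hker y y.2)
  have hinj : ∀ x, π x = 0 → proj hψ x = 0 → x = 0 := proj_inj hψ
  have hApos : (0 : ℝ) < A.card := by exact_mod_cast hA.card_pos
  have hBpos : (0 : ℝ) < (A.image π).card := by exact_mod_cast (hA.image π).card_pos
  have hE2 := sumset_snd π (proj hψ) hF (int_nsmul_inj hm) hinj hA hK
  have hprod := prod_le π (proj hψ) hF (int_nsmul_inj hm) hA hK
  have hpop := pop_big π (proj hψ) hF (int_nsmul_inj hm) hinj hA hK
  obtain ⟨H', T, hfin, hcard, hT, hcov⟩ := Pool.Agent.TH404.Tor.upper m hm hF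
    (K ^ (m + 2)) (A.image (proj hψ)) (hA.image _) hE2
  set M : ℝ := (2 * K ^ (m + 2)) ^ (41005 * (Nat.log 2 m + 1)) with hM
  have hKm : (1 : ℝ) ≤ K ^ (m + 1) := one_le_pow₀ hK1
  have hKm2 : (1 : ℝ) ≤ K ^ (m + 2) := one_le_pow₀ hK1
  have hM1 : 1 ≤ M := one_le_pow₀ (by linarith)
  -- the part of `A` over the progression
  set B₁ : Finset (Fin r → ℤ) := (pop π A).filter
    (fun b => ∃ x ∈ X, ∃ h ∈ H₀, b = g₀ + ψ₀ x + h) with hB₁
  have hmeet : ((pop π A).card : ℝ) ≤ K₁ * B₁.card := by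
    have h1 := hD.meet
    have h2 : {a : Fin r → ℤ | a ∈ pop π A ∧ ∃ x ∈ X, ∃ h ∈ H₀, a = g₀ + ψ₀ x + h} =
        (B₁ : Set (Fin r → ℤ)) := by
      ext a
      rw [hB₁, Finset.coe_filter]
    rw [h2, Set.ncard_coe_finset] at h1
    exact h1
  set A₁ : Finset Γ := A.filter (fun a => π a ∈ B₁) with hA₁
  have hA₁big : (A.card : ℝ) ≤ 4 * K₁ * K ^ (m + 1) * A₁.card := by
    have h1 : A₁.card = ∑ b ∈ B₁, (A.filter (fun a => π a = b)).card := by
      rw [Finset.card_eq_sum_card_fiberwise (f := π) (s := A₁) (t := B₁)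
        (fun a ha => (Finset.mem_filter.1 (Finset.mem_coe.1 ha)).2)]
      refine Finset.sum_congr rfl fun b hb => ?_
      congr 1
      ext a
      simp only [hA₁, Finset.mem_filter]
      constructor
      · rintro ⟨⟨h3, _⟩, h4⟩
        exact ⟨h3, h4⟩
      · rintro ⟨h3, h4⟩
        exact ⟨⟨h3, by rw [h4]; exact hb⟩, h4⟩
    have h2 : B₁.card * A.card ≤ 2 * (A.image π).card * A₁.card := by
      rw [h1, Finset.mul_sum, ← smul_eq_mul, ← Finset.sum_const]
      refine Finset.sum_le_sum fun b hb => ?_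
      exact (Finset.mem_filter.1 (Finset.mem_filter.1 hb).1).2
    have h2' : (B₁.card : ℝ) * A.card ≤ 2 * (A.image π).card * A₁.card := by exact_mod_cast h2
    have h3 : ((A.image π).card : ℝ) ≤ 2 * K ^ (m + 1) * K₁ * B₁.card := by
      calc ((A.image π).card : ℝ) ≤ 2 * K ^ (m + 1) * (pop π A).card := hpop
        _ ≤ 2 * K ^ (m + 1) * (K₁ * B₁.card) := mul_le_mul_of_nonneg_left hmeet (by positivity)
        _ = _ := by ring
    have h4 : ((A.image π).card : ℝ) * A.card ≤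
        (A.image π).card * (4 * K₁ * K ^ (m + 1) * A₁.card) := by
      calc ((A.image π).card : ℝ) * A.card ≤ (2 * K ^ (m + 1) * K₁ * B₁.card) * A.card :=
            mul_le_mul_of_nonneg_right h3 hApos.le
        _ = (2 * K ^ (m + 1) * K₁) * (B₁.card * A.card) := by ring
        _ ≤ (2 * K ^ (m + 1) * K₁) * (2 * (A.image π).card * A₁.card) :=
            mul_le_mul_of_nonneg_left h2' (by positivity)
        _ = _ := by ring
    exact le_of_mul_le_mul_left h4 hBpos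
  have hA₁ne : A₁.Nonempty := by
    rw [← Finset.card_pos]
    by_contra hcon
    have h0 : A₁.card = 0 := by omega
    rw [h0] at hA₁big
    simp at hA₁big
    rw [hA₁big] at hA
    exact Finset.not_nonempty_empty hA
  -- a popular coset
  obtain ⟨t, ht, ht2⟩ := pigeon T A₁ A₁ hA₁ne (fun t a => proj hψ a - t ∈ H') subset_rfl (by
    intro a ha
    exact hcov _ (Finset.mem_image_of_mem _ (Finset.mem_filter.1 ha).1))
  set A₂ := A₁.filter (fun a => proj hψ a - t ∈ H') with hA₂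
  have hA₂big : (A.card : ℝ) ≤ 4 * K₁ * K ^ (m + 1) * M * A₂.card := by
    have h1 : (A₁.card : ℝ) ≤ T.card * A₂.card := by exact_mod_cast ht2
    calc (A.card : ℝ) ≤ 4 * K₁ * K ^ (m + 1) * A₁.card := hA₁big
      _ ≤ 4 * K₁ * K ^ (m + 1) * (T.card * A₂.card) :=
          mul_le_mul_of_nonneg_left h1 (by positivity)
      _ ≤ 4 * K₁ * K ^ (m + 1) * (M * A₂.card) := by
          refine mul_le_mul_of_nonneg_left ?_ (by positivity)
          exact mul_le_mul_of_nonneg_right hT (Nat.cast_nonneg _)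
      _ = _ := by ring
  have hcardH : Nat.card (H'.map π.ker.subtype) = Nat.card H' :=
    AddSubgroup.card_map_of_injective π.ker.subtype_injective
  have hfinH : Finite (H'.map π.ker.subtype) :=
    Finite.of_equiv H' (H'.equivMapOfInjective π.ker.subtype π.ker.subtype_injective).toEquiv
  have hbase : K₁ ≤ 4 * K₁ * K ^ (m + 1) * M := by
    calc K₁ = K₁ * 1 * 1 := by ring
      _ ≤ (4 * K₁) * K ^ (m + 1) * M := by
        refine mul_le_mul (mul_le_mul (by linarith) hKm zero_le_one (by linarith)) hM1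
          zero_le_one (by positivity)
  refine ⟨H'.map π.ker.subtype, ψ g₀ + t, ⟨hD.ne, hfinH, ?_, ?_, ?_, ?_⟩⟩
  · exact hD.doubling.trans (mul_le_mul_of_nonneg_right hbase (Nat.cast_nonneg _))
  · exact hD.dense.trans (mul_le_mul_of_nonneg_right hbase (Nat.cast_nonneg _))
  · rw [hcardH]
    have hH₀ := hD.fin
    have h1 : (1 : ℝ) ≤ Nat.card H₀ := by exact_mod_cast Nat.card_pos
    have h2 : (X.card : ℝ) ≤ K₁ * (A.image π).card := by
      calc (X.card : ℝ) = X.card * 1 := by ring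
        _ ≤ X.card * Nat.card H₀ := mul_le_mul_of_nonneg_left h1 (Nat.cast_nonneg _)
        _ ≤ K₁ * (pop π A).card := hD.size
        _ ≤ K₁ * (A.image π).card := by
            refine mul_le_mul_of_nonneg_left ?_ (by linarith)
            exact_mod_cast Finset.card_le_card (Finset.filter_subset _ _)
    have h3 : (Nat.card H' : ℝ) ≤ (A.image (proj hψ)).card := by exact_mod_cast hcard
    calc (X.card : ℝ) * Nat.card H' ≤ (K₁ * (A.image π).card) * (A.image (proj hψ)).card :=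
          mul_le_mul h2 h3 (Nat.cast_nonneg _) (by positivity)
      _ = K₁ * ((A.image π).card * (A.image (proj hψ)).card) := by ring
      _ ≤ K₁ * (K ^ (m + 1) * A.card) := mul_le_mul_of_nonneg_left hprod (by linarith)
      _ = (K₁ * K ^ (m + 1)) * 1 * A.card := by ring
      _ ≤ (4 * K₁ * K ^ (m + 1)) * M * A.card := by
          refine mul_le_mul_of_nonneg_right ?_ hApos.le
          refine mul_le_mul ?_ hM1 zero_le_one (by positivity)
          refine mul_le_mul_of_nonneg_right (by linarith) (by positivity)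
  · refine hA₂big.trans (mul_le_mul_of_nonneg_left ?_ (by positivity))
    have hsub : (A₂ : Set Γ) ⊆ {a : Γ | a ∈ A ∧ ∃ x ∈ X, ∃ h ∈ H'.map π.ker.subtype,
        a = (ψ g₀ + t) + (ψ.comp ψ₀) x + h} := by
      intro a ha
      obtain ⟨h1, h2⟩ := Finset.mem_filter.1 (Finset.mem_coe.1 ha)
      obtain ⟨h3, h4⟩ := Finset.mem_filter.1 h1
      obtain ⟨h5, x, hx, h, hh, e⟩ := Finset.mem_filter.1 h4
      have hH₀ := hD.fin
      have hzero : h = 0 := by
        have hfo : IsOfFinAddOrder (⟨h, hh⟩ : H₀) := isOfFinAddOrder_of_finite _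
        rw [isOfFinAddOrder_iff_nsmul_eq_zero] at hfo
        obtain ⟨n, hn, hn2⟩ := hfo
        have h6 := congrArg (fun y : H₀ => (y : Fin r → ℤ)) hn2
        simp only [AddSubgroup.coe_nsmul, AddSubgroup.coe_zero] at h6
        exact int_nsmul_inj hn h 0 (by rw [h6, smul_zero])
      refine ⟨h3, x, hx, _, AddSubgroup.mem_map.2 ⟨_, h2, rfl⟩, ?_⟩
      change a = (ψ g₀ + t) + ψ (ψ₀ x) + ((proj hψ a - t : π.ker) : Γ)
      rw [hzero, add_zero] at e
      rw [AddSubgroup.coe_sub, proj_coe, e, map_add]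
      abel
    have hfinS : {a : Γ | a ∈ A ∧ ∃ x ∈ X, ∃ h ∈ H'.map π.ker.subtype,
        a = (ψ g₀ + t) + (ψ.comp ψ₀) x + h}.Finite :=
      (Finset.finite_toSet A).subset (fun a ha => ha.1)
    have h6 := Set.ncard_le_ncard hsub hfinS
    rw [Set.ncard_coe_finset] at h6
    exact_mod_cast h6

end transfer

end Pool.Agent.X164.MG
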