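import Pool.Agent.X164.MG.B
set_option autoImplicit false
set_option linter.unusedSectionVars false
set_option exponentiation.threshold 100000

/-! Mixed groups: final statements. -/

namespace Pool.Agent.X164.MG

open Finset
open scoped Pointwise
open Pool.Agent.Y806.DF

universe u

/-- Q1 for all sets in free abelian groups of finite rank -/
def PFRFree : Prop :=
  ∃ C : ℝ, ∀ (r : ℕ) (K : ℝ) (A : Finset (Fin r → ℤ)), A.Nonempty →
    ((A + A).card : ℝ) ≤ K * A.card → Concl C K A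

/-- Q1 for all sets in abelian groups whose elements of finite order are killed by `m` -/
def PFRTor (m : ℕ) : Prop :=
  ∃ C : ℝ, ∀ (Γ : Type u) [AddCommGroup Γ] [DecidableEq Γ], (∀ x : Γ, IsOfFinAddOrder x → m • x = 0) →
    ∀ (K : ℝ) (A : Finset Γ), A.Nonempty → ((A + A).card : ℝ) ≤ K * A.card → Concl C K A

theorem bound (a b s : ℕ) {K : ℝ} (hK1 : 1 ≤ K) (m : ℕ) :
    4 * ((a : ℝ) * K ^ b) * K ^ (m + 1) * (2 * K ^ (m + 2)) ^ s ≤
      ((4 * a * 2 ^ s + (b + (m + 1) + (m + 2) * s) + 1 : ℕ) : ℝ) *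
        K ^ (4 * a * 2 ^ s + (b + (m + 1) + (m + 2) * s) + 1) := by
  have e1 : 4 * ((a : ℝ) * K ^ b) * K ^ (m + 1) * (2 * K ^ (m + 2)) ^ s =
      ((4 * a * 2 ^ s : ℕ) : ℝ) * K ^ (b + (m + 1) + (m + 2) * s) := by
    rw [mul_pow, ← pow_mul, pow_add, pow_add]
    push_cast
    ring
  rw [e1]
  refine mul_le_mul ?_ (pow_le_pow_right₀ hK1 (by omega)) (by positivity) (Nat.cast_nonneg _)
  exact_mod_cast (by omega : 4 * a * 2 ^ s ≤ 4 * a * 2 ^ s + (b + (m + 1) + (m + 2) * s) + 1)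

theorem exists_section {Γ : Type*} [AddCommGroup Γ] {r : ℕ} {π : Γ →+ (Fin r → ℤ)}
    (hπ : Function.Surjective π) : ∃ ψ : (Fin r → ℤ) →+ Γ, ∀ x, π (ψ x) = x := by
  classical
  choose γ hγ using fun i : Fin r => hπ (Pi.single i 1)
  refine ⟨⟨⟨fun x => ∑ i, x i • γ i, by simp⟩, fun x y => ?_⟩, fun x => ?_⟩
  · simp only [Pi.add_apply, add_smul, Finset.sum_add_distrib]
  · change π (∑ i, x i • γ i) = x
    rw [map_sum]
    funext j
    rw [Finset.sum_apply, Finset.sum_eq_single j]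
    · rw [map_zsmul, hγ]
      simp
    · intro i _ hij
      rw [map_zsmul, hγ]
      simp [hij.symm]
    · intro h
      exact absurd (Finset.mem_univ _) h

/-- sets with dense projection -/
theorem convex_case (m : ℕ) (hm : 0 < m) : ∃ C : ℝ, ∀ (Γ : Type u) [AddCommGroup Γ] [DecidableEq Γ]
    (r : ℕ) (π : Γ →+ (Fin r → ℤ)), Function.Surjective π → (∀ x, π x = 0 → m • x = 0) →
    ∀ (K : ℝ) (A : Finset Γ), A.Nonempty → ((A + A).card : ℝ) ≤ K * A.card →
      ((hull (A.image π)).ncard : ℝ) ≤ K * (A.image π).card → Concl C K A := by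
  refine ⟨((5000 * (4 * 2 * 2 ^ (41005 * (Nat.log 2 m + 1)) +
    ((m + 4) + (m + 1) + (m + 2) * (41005 * (Nat.log 2 m + 1))) + 1) ^ 5000 : ℕ) : ℝ), ?_⟩
  intro Γ _ _ r π hπ hker K A hA hK hhull
  obtain ⟨ψ, hψ⟩ := exists_section hπ
  have hK1 := one_le hA hK
  have hK0 : 0 < K := by linarith
  have hF : ∀ y : π.ker, m • y = 0 := fun y => Subtype.ext (by
    rw [AddSubgroup.coe_nsmul, AddSubgroup.coe_zero]
    exact hker y y.2)
  have hpop := pop_big π (proj hψ) hF (int_nsmul_inj hm) (proj_inj hψ) hA hK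
  have hBpos : (0 : ℝ) < (A.image π).card := by exact_mod_cast (hA.image π).card_pos
  have hle : ∀ i ≤ m + 4, K ^ i ≤ 2 * K ^ (m + 4) := by
    intro i hi
    have h1 : K ^ i ≤ K ^ (m + 4) := pow_le_pow_right₀ hK1 hi
    have h2 : 0 ≤ K ^ (m + 4) := by positivity
    linarith
  have hK₁ : (1 : ℝ) ≤ 2 * K ^ (m + 4) := by
    have := hle 0 (by omega)
    simpa using this
  have hD : Data (2 * K ^ (m + 4)) (pop π A) (A.image π) (AddMonoidHom.id (Fin r → ℤ)) ⊥ 0 := by
    refine ⟨hA.image π, inferInstance, ?_, ?_, ?_, ?_⟩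
    · exact (sumset_fst π hA hK).trans
        (mul_le_mul_of_nonneg_right (hle 3 (by omega)) (Nat.cast_nonneg _))
    · refine hhull.trans (mul_le_mul_of_nonneg_right ?_ (Nat.cast_nonneg _))
      have := hle 1 (by omega)
      rwa [pow_one] at this
    · have h1 : Nat.card (⊥ : AddSubgroup (Fin r → ℤ)) = 1 := by simp
      rw [h1, Nat.cast_one, mul_one]
      refine hpop.trans (mul_le_mul_of_nonneg_right ?_ (Nat.cast_nonneg _))
      exact mul_le_mul_of_nonneg_left (pow_le_pow_right₀ hK1 (by omega)) (by norm_num)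
    · have h2 : {a : Fin r → ℤ | a ∈ pop π A ∧ ∃ x ∈ A.image π,
          ∃ h ∈ (⊥ : AddSubgroup (Fin r → ℤ)), a = 0 + (AddMonoidHom.id (Fin r → ℤ)) x + h} =
          ((pop π A : Finset (Fin r → ℤ)) : Set (Fin r → ℤ)) := by
        ext a
        constructor
        · rintro ⟨ha, -⟩
          exact ha
        · intro ha
          exact ⟨ha, a, (Finset.mem_filter.1 (Finset.mem_coe.1 ha)).1, 0, AddSubgroup.zero_mem _,
            by simp⟩
      rw [h2, Set.ncard_coe_finset]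
      calc ((pop π A).card : ℝ) = 1 * (pop π A).card := (one_mul _).symm
        _ ≤ _ := mul_le_mul_of_nonneg_right hK₁ (Nat.cast_nonneg _)
  obtain ⟨H, g, hD'⟩ := transfer hm hψ hker hA hK hK₁ hD
  refine concl_of_data hA hK (Nat.le_add_left 1 _) (hD'.mono ?_)
  have := bound 2 (m + 4) (41005 * (Nat.log 2 m + 1)) hK1 m
  push_cast at this ⊢
  exact this

theorem concl_map {Γ₀ Γ : Type*} [AddCommGroup Γ₀] [AddCommGroup Γ] [DecidableEq Γ]
    (ι : Γ₀ →+ Γ) (hι : Function.Injective ι) {C K : ℝ} {A : Finset Γ₀} (h : Concl C K A) :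
    Concl C K (A.image ι) := by
  obtain ⟨d, B, ψ, H, T, h1, h2, h3, h4, h5, h6⟩ := h
  refine ⟨d, B, ι.comp ψ, H.map ι, T.image ι, h1, h2,
    Finite.of_equiv H (H.equivMapOfInjective ι hι).toEquiv, ?_, ?_, ?_⟩
  · rw [AddSubgroup.card_map_of_injective hι, Finset.card_image_of_injective _ hι]
    exact h4
  · have : ((T.image ι).card : ℝ) ≤ T.card := by exact_mod_cast Finset.card_image_le
    exact this.trans h5
  · intro a ha
    obtain ⟨b, hb, rfl⟩ := Finset.mem_image.1 ha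
    obtain ⟨t, ht, x, hx, h, hh, e⟩ := h6 b hb
    refine ⟨ι t, Finset.mem_image_of_mem _ ht, x, hx, ι h, AddSubgroup.mem_map.2 ⟨h, hh, rfl⟩, ?_⟩
    rw [e, map_add, map_add]
    rfl

theorem free_imp_tor (m : ℕ) (hm : 0 < m) : PFRFree → PFRTor.{u} m := by
  classical
  rintro ⟨C, hC⟩
  obtain ⟨n, hn1, hn, hCK⟩ := nat_const C
  set s := 41005 * (Nat.log 2 m + 1) with hs
  refine ⟨((5000 * (4 * (4 ^ n * 2 ^ (4 ^ n)) * 2 ^ s +
    (((m + 4) * 4 ^ n) + (m + 1) + (m + 2) * s) + 1) ^ 5000 : ℕ) : ℝ), ?_⟩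
  intro Γ _ _ htor K A hA hK
  -- the group generated by `A`
  set Γ₀ := AddSubgroup.closure (A : Set Γ) with hΓ₀
  have hfg : AddGroup.FG Γ₀ := (AddGroup.fg_iff_addSubgroup_fg _).2 ⟨A, rfl⟩
  obtain ⟨r, ι, fι, p, hp, e, ⟨f⟩⟩ := AddCommGroup.equiv_free_prod_directSum_zmod Γ₀
  set A₀ : Finset Γ₀ := A.preimage (fun v : Γ₀ => (v : Γ)) Subtype.val_injective.injOn with hA₀
  have himg : A₀.image Γ₀.subtype = A := by
    ext a
    simp only [hA₀, Finset.mem_image, Finset.mem_preimage]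
    constructor
    · rintro ⟨v, hv, rfl⟩
      exact hv
    · intro ha
      exact ⟨⟨a, AddSubgroup.subset_closure ha⟩, ha, rfl⟩
  have hcard : A₀.card = A.card := by
    rw [← himg, Finset.card_image_of_injective _ Γ₀.subtype_injective]
  have hcard2 : (A₀ + A₀).card = (A + A).card := by
    rw [← himg, ← Finset.image_add Γ₀.subtype,
      Finset.card_image_of_injective _ Γ₀.subtype_injective]
  have hA₀ne : A₀.Nonempty := by
    rw [← Finset.card_pos, hcard]
    exact hA.card_pos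
  have hK' : ((A₀ + A₀).card : ℝ) ≤ K * A₀.card := by rw [hcard, hcard2]; exact hK
  have hK1 := one_le hA hK
  have hK0 : 0 < K := by linarith
  -- the projection
  let π : Γ₀ →+ (Fin r → ℤ) :=
    ((Finsupp.coeFnAddHom : (Fin r →₀ ℤ) →+ (Fin r → ℤ)).comp (AddMonoidHom.fst _ _)).comp
      f.toAddMonoidHom
  have hπ : Function.Surjective π := by
    intro x
    refine ⟨f.symm (Finsupp.equivFunOnFinite.symm x, 0), ?_⟩
    change ((f (f.symm (Finsupp.equivFunOnFinite.symm x, 0))).1 : Fin r → ℤ) = x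
    rw [AddEquiv.apply_symm_apply]
    rfl
  obtain ⟨ψ, hψ⟩ := exists_section hπ
  have hker : ∀ x, π x = 0 → m • x = 0 := by
    intro x hx
    have h1 : (f x).1 = 0 := by
      apply DFunLike.coe_injective
      exact hx
    have h2 : IsOfFinAddOrder (f x).2 := by
      have : Finite (DirectSum ι fun i => ZMod (p i ^ e i)) := by
        have : ∀ i, NeZero (p i ^ e i) := fun i => ⟨pow_ne_zero _ (hp i).ne_zero⟩
        exact Finite.of_equiv _ (DirectSum.addEquivProd (fun i => ZMod (p i ^ e i))).symm.toEquiv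
      exact isOfFinAddOrder_of_finite _
    have h3 : IsOfFinAddOrder (f x) := by
      rw [isOfFinAddOrder_iff_nsmul_eq_zero] at h2 ⊢
      obtain ⟨k, hk, hk2⟩ := h2
      refine ⟨k, hk, Prod.ext ?_ hk2⟩
      change k • (f x).1 = 0
      rw [h1, smul_zero]
    have h4 : IsOfFinAddOrder (x : Γ) := by
      rw [isOfFinAddOrder_iff_nsmul_eq_zero] at h3 ⊢
      obtain ⟨k, hk, hk2⟩ := h3
      refine ⟨k, hk, ?_⟩
      rw [← map_nsmul] at hk2
      have h5 := (AddEquiv.map_eq_zero_iff f).1 hk2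
      have h6 := congrArg (fun y : Γ₀ => (y : Γ)) h5
      simpa using h6
    refine Subtype.ext ?_
    rw [AddSubgroup.coe_nsmul, AddSubgroup.coe_zero]
    exact htor _ h4
  have hF : ∀ y : π.ker, m • y = 0 := fun y => Subtype.ext (by
    rw [AddSubgroup.coe_nsmul, AddSubgroup.coe_zero]
    exact hker y y.2)
  have hpop := pop_big π (proj hψ) hF (int_nsmul_inj hm) (proj_inj hψ) hA₀ne hK'
  have hBpos : (0 : ℝ) < (A₀.image π).card := by exact_mod_cast (hA₀ne.image π).card_pos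
  have hpne : (pop π A₀).Nonempty := by
    rw [← Finset.card_pos]
    by_contra hcon
    have h0 : (pop π A₀).card = 0 := by omega
    rw [h0] at hpop
    simp at hpop
    rw [hpop] at hA₀ne
    exact Finset.not_nonempty_empty hA₀ne
  have hK₂ : ((pop π A₀ + pop π A₀).card : ℝ) ≤ (2 * K ^ (m + 4)) * (pop π A₀).card := by
    have h1 : ((pop π A₀ + pop π A₀).card : ℝ) ≤ (A₀.image π + A₀.image π).card := by
      exact_mod_cast Finset.card_le_card
        (Finset.add_subset_add (Finset.filter_subset _ _) (Finset.filter_subset _ _))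
    calc ((pop π A₀ + pop π A₀).card : ℝ) ≤ K ^ 3 * (A₀.image π).card :=
          h1.trans (sumset_fst π hA₀ne hK')
      _ ≤ K ^ 3 * (2 * K ^ (m + 1) * (pop π A₀).card) :=
          mul_le_mul_of_nonneg_left hpop (by positivity)
      _ = _ := by rw [show m + 4 = 3 + (m + 1) by omega, pow_add]; ring
  have hK21 : (1 : ℝ) ≤ 2 * K ^ (m + 4) := by
    have : (1 : ℝ) ≤ K ^ (m + 4) := one_le_pow₀ hK1
    linarith
  obtain ⟨d, X, ψ₀, H₀, g₀, hD⟩ := data_of_concl hn hCK hpne hK21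
    (hC r (2 * K ^ (m + 4)) (pop π A₀) hpne hK₂)
  have hone : (1 : ℝ) ≤ ((4 ^ n : ℕ) : ℝ) * (2 * K ^ (m + 4)) ^ (4 ^ n : ℕ) := by
    have e1 : (1 : ℝ) ≤ ((4 ^ n : ℕ) : ℝ) := by exact_mod_cast Nat.one_le_pow _ _ (by norm_num)
    have e2 : (1 : ℝ) ≤ (2 * K ^ (m + 4)) ^ (4 ^ n : ℕ) := one_le_pow₀ hK21
    exact one_le_mul_of_one_le_of_one_le e1 e2
  obtain ⟨H, g, hD'⟩ := transfer hm hψ hker hA₀ne hK' hone hD
  have hfinal : Concl ((5000 * (4 * (4 ^ n * 2 ^ (4 ^ n)) * 2 ^ s +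
    (((m + 4) * 4 ^ n) + (m + 1) + (m + 2) * s) + 1) ^ 5000 : ℕ) : ℝ) K A₀ := by
    refine concl_of_data hA₀ne hK' (Nat.le_add_left 1 _) (hD'.mono ?_)
    have h1 := bound (4 ^ n * 2 ^ (4 ^ n)) ((m + 4) * 4 ^ n) s hK1 m
    have h2 : ((4 ^ n : ℕ) : ℝ) * (2 * K ^ (m + 4)) ^ (4 ^ n : ℕ) =
        ((4 ^ n * 2 ^ (4 ^ n) : ℕ) : ℝ) * K ^ ((m + 4) * 4 ^ n) := by
      rw [mul_pow, ← pow_mul]
      push_cast
      ring
    rw [h2]
    exact h1
  have := concl_map Γ₀.subtype Γ₀.subtype_injective hfinal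
  rwa [himg] at this

theorem tor_imp_free (m : ℕ) : PFRTor.{u} m → PFRFree := by
  classical
  rintro ⟨C, hC⟩
  refine ⟨C, fun r K A hA hK => ?_⟩
  let e : ULift.{u} (Fin r → ℤ) ≃+ (Fin r → ℤ) := AddEquiv.ulift
  set A' : Finset (ULift.{u} (Fin r → ℤ)) := A.image e.symm.toAddMonoidHom with hA'
  have hinj : Function.Injective e.symm.toAddMonoidHom := e.symm.injective
  have hc1 : A'.card = A.card := Finset.card_image_of_injective _ hinj
  have hc2 : (A' + A').card = (A + A).card := by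
    rw [hA', ← Finset.image_add e.symm.toAddMonoidHom]
    exact Finset.card_image_of_injective _ hinj
  have hback : A'.image e.toAddMonoidHom = A := by
    rw [hA', Finset.image_image]
    have : (e.toAddMonoidHom : ULift.{u} (Fin r → ℤ) → (Fin r → ℤ)) ∘ e.symm.toAddMonoidHom =
        id := by
      funext x
      exact e.apply_symm_apply x
    rw [this, Finset.image_id]
  have h1 : Concl C K A' := by
    refine hC (ULift.{u} (Fin r → ℤ)) ?_ K A' (hA.image _) (by rw [hc1, hc2]; exact hK)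
    intro x hx
    rw [isOfFinAddOrder_iff_nsmul_eq_zero] at hx
    obtain ⟨n, hn, hn2⟩ := hx
    have h3 : e x = 0 := int_nsmul_inj hn (e x) 0 (by
      rw [smul_zero, ← map_nsmul, hn2, map_zero])
    have h4 : x = 0 := (AddEquiv.map_eq_zero_iff e).1 h3
    rw [h4, smul_zero]
  have h2 := concl_map e.toAddMonoidHom e.injective h1
  rwa [hback] at h2

end Pool.Agent.X164.MG
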